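import Pool.Agent.K3h27.PP.ASM
import Pool.Agent.K3h33.PP.LOWER

/-!
# MP_f77bf6_co: the exact value of `ex(n, P_6, P_8)` for every `n`

The maximum number of copies of the 6-vertex path in an `n`-vertex graph without 8-vertex path is
`0` for `n ≤ 5`, `360` for `n = 6`, `2520` for `7 ≤ n ≤ 10` and `12 (n-3) (n-4) (n-5)` for `n ≥ 10`.
-/

set_option autoImplicit false

namespace Pool.Agent.Results.MP_f77bf6_co.ExactValue

/-- The value of `ex(n, P_6, P_8)`. -/
def value (n : ℕ) : ℕ :=
  if n ≤ 5 then 0 else if n = 6 then 360 else if n ≤ 10 then 2520 else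
    12 * (n - 3) * (n - 4) * (n - 5)

/-- **The exact value of `ex(n, P_6, P_8)`.**  For every `n`, the largest number of subgraphs
isomorphic to the path with 6 vertices in a graph on `n` vertices which has no subgraph isomorphic
to the path with 8 vertices is `value n`. -/
theorem result (n : ℕ) :
    IsGreatest {m : ℕ | ∃ G : SimpleGraph (Fin n), (SimpleGraph.pathGraph 8).Free G ∧
      G.copyCount (SimpleGraph.pathGraph 6) = m} (value n) :=
  Pool.Agent.K3h27.PP.main_of_lower Pool.Agent.K3h33.PP.t_LOWER n

end Pool.Agent.Results.MP_f77bf6_co.ExactValue
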